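import Pool.Agent.V1132.FixedClosureMain

/-!
# Endo-fixed closures in `ℤ^m × F_n` need not be finitely generated
-/

set_option autoImplicit false

namespace Pool.Agent.Results.MP_d3e052_al.EndoClosure

open Pool.Agent.V1132.FixedClosure

/-- **Theorem.** For all `m ≥ 1` and `n ≥ 2` there is a finitely generated subgroup of
`ℤ^m × F_n` whose endo-fixed closure is not finitely generated. -/
theorem result (m n : ℕ) (hm : 1 ≤ m) (hn : 2 ≤ n) :
    ∃ H : Subgroup (FATF m n), H.FG ∧ ¬ (endoClosure H).FG := by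
  obtain ⟨k, rfl⟩ : ∃ k, n = k + 2 := ⟨n - 2, by omega⟩
  exact ⟨Pool.Agent.V1132.FixedClosureMain.K m k, Pool.Agent.V1132.FixedClosureMain.K_fg m k,
    Pool.Agent.V1132.FixedClosureMain.endo_not_fg hm k⟩

end Pool.Agent.Results.MP_d3e052_al.EndoClosure
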